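import Pool.Agent.H764R2.Had.Rep
import Pool.Agent.H114R2.Had

/-! Hadamard matrices of order `2 ^ t * q` for `t ≥ 100 √(log q)`. -/

namespace Pool.Agent.H764R2.Had

open Finset Matrix Pool.Agent.H114R2

theorem compFam_listC (σ : ℕ) : ∀ l : List ℕ, l.length ≤ 2 ^ σ → (∀ x ∈ l, CompFam 4 x) →
    CompFam (2 ^ (σ + 2)) l.sum := by
  induction σ with
  | zero =>
    intro l hl hG
    rcases l with _ | ⟨x, l⟩
    · exact compFam_zero _
    · have : l = [] := by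
        have : l.length = 0 := by simp at hl; simpa using hl
        exact List.length_eq_zero_iff.1 this
      subst this
      simpa using hG x (by simp)
  | succ σ ih =>
    intro l hl hG
    have h1 := ih (l.take (2 ^ σ)) (by simp) (fun x hx => hG x (List.mem_of_mem_take hx))
    have h2 := ih (l.drop (2 ^ σ)) (by
      rw [List.length_drop, pow_succ] at *; omega) (fun x hx => hG x (List.mem_of_mem_drop hx))
    have h3 := h1.add h2
    rw [List.sum_take_add_sum_drop] at h3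
    have h4 : 2 * 2 ^ (σ + 2) = 2 ^ (σ + 1 + 2) := by ring
    rwa [h4] at h3

theorem had_of_listC {σ κ : ℕ} {l : List ℕ} (hl : l.length ≤ 2 ^ σ) (hG : ∀ x ∈ l, IsT κ x)
    (hn : 0 < l.sum) {t : ℕ} (ht : 8 * 2 ^ σ + σ + 4 + κ ≤ t) : HasHad (2 ^ t * l.sum) := by
  have h0 : CompFam (2 ^ (σ + 2)) (l.map (fun y => 2 ^ κ * y)).sum := by
    apply compFam_listC σ _ (by simpa using hl)
    intro x hx
    rw [List.mem_map] at hx
    obtain ⟨y, hy, rfl⟩ := hx
    exact (hG y hy).compFam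
  rw [List.sum_map_mul_left, List.map_id'] at h0
  have h1 := had_of_compFam (by positivity) h0
  have h2 := hasHad_pow h1 (t - (8 * 2 ^ σ + σ + 4 + κ))
  have h3 : 2 ^ (t - (8 * 2 ^ σ + σ + 4 + κ)) *
      (2 ^ 2 ^ (σ + 2 + 1) * (2 ^ (σ + 2 + 1) * (2 * (2 ^ κ * l.sum)))) = 2 ^ t * l.sum := by
    have e1 : 2 ^ (σ + 2 + 1) = 8 * 2 ^ σ := by ring
    have e2 : t = (t - (8 * 2 ^ σ + σ + 4 + κ)) + 8 * 2 ^ σ + (σ + 2 + 1) + 1 + κ := by omega
    conv_rhs => rw [e2, pow_add, pow_add, pow_add, pow_add]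
    rw [show 2 ^ 2 ^ (σ + 2 + 1) = 2 ^ (8 * 2 ^ σ) by rw [e1]]
    ring
  rwa [h3] at h2

/-- combinatorial form of the bound -/
theorem had_sqrt_comb (q : ℕ) (hq : 0 < q) : ∃ x : ℕ, x ^ 2 ≤ 9 * Nat.log 2 q ∧
    ∀ t, 18 * (x + 1) + 3 + Nat.sqrt (Nat.log 2 q) ≤ t → HasHad (2 ^ t * q) := by
  obtain ⟨x, hx, l, hl, hT, hs⟩ := rep q hq
  refine ⟨x, hx, fun t ht => ?_⟩
  have h1 : x + 1 ≤ 2 ^ (Nat.clog 2 (x + 1)) := Nat.le_pow_clog (by norm_num) _
  have h2 : 2 ^ (Nat.clog 2 (x + 1)) ≤ 2 * (x + 1) := by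
    rcases Nat.eq_zero_or_pos x with h | h
    · rw [h]; norm_num
    · have h3 := Nat.pow_pred_clog_lt_self (b := 2) (x := x + 1) (by norm_num) (by omega)
      have h4 : 0 < Nat.clog 2 (x + 1) := Nat.clog_pos (by norm_num) (by omega)
      have h5 : Nat.clog 2 (x + 1) = (Nat.clog 2 (x + 1)).pred + 1 := by
        rw [Nat.pred_eq_sub_one]; omega
      rw [h5, pow_succ]
      omega
  have h3 : Nat.clog 2 (x + 1) + 1 ≤ 2 ^ (Nat.clog 2 (x + 1)) := Nat.lt_two_pow_self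
  have h4 := had_of_listC (hl.trans h1) hT (by rw [hs]; exact hq) (t := t) (by omega)
  rwa [hs] at h4

theorem had_sqrt (q t : ℕ) (hq : 3 ≤ q) (ht : 100 * Real.sqrt (Real.log q) ≤ t) :
    HasHad (2 ^ t * q) := by
  obtain ⟨x, hx, h⟩ := had_sqrt_comb q (by omega)
  apply h
  set y := Real.sqrt (Real.log q) with hy
  have hq0 : (0 : ℝ) < q := by positivity
  have hx1 : 1 < Real.log q := by
    rw [Real.lt_log_iff_exp_lt hq0]
    have h1 : Real.exp 1 < 2.7182818286 := Real.exp_one_lt_d9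
    have h2 : (3 : ℝ) ≤ q := by exact_mod_cast hq
    linarith
  have hy1 : 1 ≤ y := by
    rw [hy]
    exact Real.one_le_sqrt.2 hx1.le
  have hyy : y ^ 2 = Real.log q := Real.sq_sqrt (by linarith)
  have hlogq : (Nat.log 2 q : ℝ) * Real.log 2 ≤ Real.log q := by
    have h1 : 2 ^ Nat.log 2 q ≤ q := Nat.pow_log_le_self 2 (by omega)
    have h2 : ((2 ^ Nat.log 2 q : ℕ) : ℝ) ≤ q := by exact_mod_cast h1
    have h3 : Real.log ((2 : ℝ) ^ Nat.log 2 q) ≤ Real.log q := by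
      apply Real.log_le_log (by positivity)
      push_cast at h2
      exact h2
    rwa [Real.log_pow] at h3
  have hlog2 : 0.6931 < Real.log 2 := by
    have := Real.log_two_gt_d9
    linarith
  have hL : (Nat.log 2 q : ℝ) ≤ 1.45 * y ^ 2 := by
    rw [hyy]
    have h0 : (0 : ℝ) ≤ Nat.log 2 q := by positivity
    nlinarith
  have hxr : (x : ℝ) ≤ 3.7 * y := by
    have h1 : ((x ^ 2 : ℕ) : ℝ) ≤ ((9 * Nat.log 2 q : ℕ) : ℝ) := by exact_mod_cast hx
    push_cast at h1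
    apply le_of_sq_le_sq _ (by positivity)
    nlinarith
  have hsr : (Nat.sqrt (Nat.log 2 q) : ℝ) ≤ 1.3 * y := by
    have h1 : Nat.sqrt (Nat.log 2 q) * Nat.sqrt (Nat.log 2 q) ≤ Nat.log 2 q := Nat.sqrt_le _
    have h2 : ((Nat.sqrt (Nat.log 2 q) * Nat.sqrt (Nat.log 2 q) : ℕ) : ℝ) ≤ (Nat.log 2 q : ℝ) := by
      exact_mod_cast h1
    push_cast at h2
    apply le_of_sq_le_sq _ (by positivity)
    nlinarith
  have h4 : ((18 * (x + 1) + 3 + Nat.sqrt (Nat.log 2 q) : ℕ) : ℝ) ≤ t := by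
    push_cast
    linarith
  exact_mod_cast h4

end Pool.Agent.H764R2.Had
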