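import Pool.Agent.H764R2.Had.Yang

/-! Every integer `n` is a sum of `O(sqrt(log n))` numbers `2 ^ A * ∏ (2 ^ b + 1)`. -/

namespace Pool.Agent.H764R2.Had

open Finset Pool.Agent.H114R2

/-- the product `∏ (2 ^ (b + 1) + 1)` -/
def pr (l : List ℕ) : ℕ := (l.map (fun b => 2 ^ (b + 1) + 1)).prod

theorem compFam_pr (l : List ℕ) (A : ℕ) : CompFam 4 (2 ^ A * (2 ^ l.length * pr l)) := by
  induction l with
  | nil =>
    obtain ⟨e, f, h⟩ := golay_exists A 0
    have h2 := (compFam_of_golay h).add (compFam_zero 2)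
    simpa [pr] using h2
  | cons b l ih =>
    obtain ⟨e, f, h⟩ := golay_exists b 0
    rw [pow_zero, mul_one] at h
    have hpos : 0 < 2 ^ A * (2 ^ l.length * pr l) := by
      have : 0 < pr l := by
        unfold pr
        apply List.prod_pos
        intro x hx
        rw [List.mem_map] at hx
        obtain ⟨c, _, rfl⟩ := hx
        positivity
      positivity
    have h2 := yang hpos (by positivity) h ih
    have h3 : (2 ^ A * (2 ^ l.length * pr l) + 2 ^ A * (2 ^ l.length * pr l)) *
        (2 ^ b + 2 ^ b + 1) = 2 ^ A * (2 ^ (b :: l).length * pr (b :: l)) := by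
      simp only [pr, List.map_cons, List.prod_cons, List.length_cons]
      ring
    rwa [h3] at h2

/-- admissible summands -/
def IsT (κ x : ℕ) : Prop := ∃ (A : ℕ) (l : List ℕ), l.length ≤ κ ∧ x = 2 ^ A * pr l

theorem IsT.mono {κ κ' x : ℕ} (h : IsT κ x) (hk : κ ≤ κ') : IsT κ' x := by
  obtain ⟨A, l, h1, h2⟩ := h
  exact ⟨A, l, h1.trans hk, h2⟩

theorem IsT.two_pow {κ x : ℕ} (h : IsT κ x) (J : ℕ) : IsT κ (2 ^ J * x) := by
  obtain ⟨A, l, h1, h2⟩ := h
  refine ⟨J + A, l, h1, ?_⟩
  rw [h2]; ring

theorem IsT.compFam {κ x : ℕ} (h : IsT κ x) : CompFam 4 (2 ^ κ * x) := by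
  obtain ⟨A, l, h1, rfl⟩ := h
  have h2 := compFam_pr l (A + (κ - l.length))
  have h3 : 2 ^ (A + (κ - l.length)) * (2 ^ l.length * pr l) = 2 ^ κ * (2 ^ A * pr l) := by
    have : 2 ^ κ = 2 ^ (κ - l.length) * 2 ^ l.length := by
      rw [← pow_add]; congr 1; omega
    rw [this]; ring
  rwa [h3] at h2

theorem pr_odd (l : List ℕ) : Odd (pr l) := by
  induction l with
  | nil => simp [pr]
  | cons b l ih =>
    have : pr (b :: l) = (2 ^ (b + 1) + 1) * pr l := by simp [pr]
    rw [this]
    refine Odd.mul ?_ ih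
    exact ⟨2 ^ b, by ring⟩

/-- every odd residue modulo `2 ^ J` is a product of few factors `2 ^ b + 1` -/
theorem residue (n : ℕ) (hn : Odd n) (J : ℕ) : ∃ l : List ℕ, l.length ≤ J ∧
    pr l ≤ 2 ^ (J * (J + 2)) ∧ pr l ≡ n [MOD 2 ^ (J + 1)] := by
  induction J with
  | zero =>
    refine ⟨[], le_rfl, by simp [pr], ?_⟩
    obtain ⟨k, rfl⟩ := hn
    unfold Nat.ModEq
    simp [pr]
  | succ J ih =>
    obtain ⟨l, h1, h2, h3⟩ := ih
    have hdvd := (Nat.modEq_iff_dvd).1 h3
    obtain ⟨e, he⟩ := hdvd
    rcases Int.even_or_odd' e with ⟨f, hf | hf⟩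
    · refine ⟨l, by omega, h2.trans (Nat.pow_le_pow_right (by norm_num) (by nlinarith)), ?_⟩
      rw [Nat.modEq_iff_dvd]
      refine ⟨f, ?_⟩
      rw [he, hf]
      push_cast
      ring
    · refine ⟨J :: l, by simpa using h1, ?_, ?_⟩
      · have h4 : pr (J :: l) = (2 ^ (J + 1) + 1) * pr l := by simp [pr]
        rw [h4]
        calc (2 ^ (J + 1) + 1) * pr l ≤ 2 ^ (J + 2) * 2 ^ (J * (J + 2)) := by
              refine Nat.mul_le_mul ?_ h2
              have : 1 ≤ 2 ^ (J + 1) := Nat.one_le_two_pow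
              rw [pow_succ 2 (J + 1)]; omega
          _ = 2 ^ ((J + 2) + J * (J + 2)) := by rw [← pow_add]
          _ ≤ 2 ^ ((J + 1) * (J + 1 + 2)) := Nat.pow_le_pow_right (by norm_num) (by nlinarith)
      · have h4 : pr (J :: l) = (2 ^ (J + 1) + 1) * pr l := by simp [pr]
        obtain ⟨g, hg⟩ := pr_odd l
        rw [Nat.modEq_iff_dvd]
        refine ⟨f - (g : ℤ), ?_⟩
        have h5 : (n : ℤ) = (pr l : ℤ) + 2 ^ (J + 1) * (2 * f + 1) := by
          rw [hf] at he
          push_cast at he ⊢
          linarith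
        have h6 : ((pr (J :: l) : ℕ) : ℤ) = (2 ^ (J + 1) + 1) * (2 * g + 1) := by
          rw [h4, hg]; push_cast; ring
        have h7 : (pr l : ℤ) = 2 * g + 1 := by rw [hg]; push_cast; ring
        rw [h6, h5, h7]
        push_cast
        ring

theorem count_step {x L J : ℕ} (hJ : J * J ≤ L) (hJ2 : L < (J + 1) * (J + 1)) (hJ1 : 1 ≤ J)
    (hx : x ^ 2 ≤ 9 * (L - J)) : (x + 1) ^ 2 ≤ 9 * L := by
  obtain ⟨M, rfl⟩ : ∃ M, L = M + J := ⟨L - J, by
    have : J ≤ J * J := Nat.le_mul_self J
    omega⟩
  rw [Nat.add_sub_cancel] at hx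
  have h1 : x < 3 * (J + 1) := by
    by_contra hcon
    push Not at hcon
    nlinarith
  rcases Nat.lt_or_ge 1 J with h | h
  · nlinarith
  · have hJ' : J = 1 := by omega
    subst hJ'
    have : M ≤ 2 := by omega
    have hx4 : x ≤ 4 := by
      by_contra hcon
      push Not at hcon
      nlinarith
    interval_cases M <;> interval_cases x <;> omega

/-- representation by few summands -/
theorem rep : ∀ n : ℕ, 0 < n → ∃ x : ℕ, x ^ 2 ≤ 9 * Nat.log 2 n ∧
    ∃ l : List ℕ, l.length ≤ x + 1 ∧ (∀ y ∈ l, IsT (Nat.sqrt (Nat.log 2 n)) y) ∧ l.sum = n := by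
  intro n
  induction n using Nat.strong_induction_on with
  | _ n ih =>
    intro hn
    rcases Nat.even_or_odd' n with ⟨m, hm | hm⟩
    · have hm0 : 0 < m := by omega
      obtain ⟨x, hx, l, hl, hT, hs⟩ := ih m (by omega) hm0
      have hlog : Nat.log 2 n = Nat.log 2 m + 1 := by
        rw [hm, mul_comm, Nat.log_mul_base (by norm_num) (by omega)]
      refine ⟨x, by rw [hlog]; omega, l.map (fun y => 2 ^ 1 * y), by simpa using hl, ?_, ?_⟩
      · intro y hy
        rw [List.mem_map] at hy
        obtain ⟨z, hz, rfl⟩ := hy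
        refine ((hT z hz).two_pow 1).mono (Nat.sqrt_le_sqrt ?_)
        omega
      · rw [List.sum_map_mul_left, List.map_id', hs, hm]; ring
    · rcases Nat.eq_zero_or_pos m with h0 | hmpos
      · subst h0
        refine ⟨0, by simp, [1], by simp, ?_, by simp [hm]⟩
        intro y hy
        rw [List.mem_singleton] at hy
        exact ⟨0, [], by simp, by simp [pr, hy]⟩
      · set L := Nat.log 2 n with hL
        have hL1 : 1 ≤ L := by
          rw [hL]
          apply Nat.le_log_of_pow_le (by norm_num)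
          omega
        set J := Nat.sqrt L with hJdef
        have hJ1 : 1 ≤ J := by
          rw [hJdef]; exact Nat.sqrt_pos.2 hL1
        have hJJ : J * J ≤ L := Nat.sqrt_le L
        have hJ2 : L < (J + 1) * (J + 1) := Nat.lt_succ_sqrt L
        obtain ⟨K, hK⟩ : ∃ K, J = K + 1 := ⟨J - 1, by omega⟩
        obtain ⟨l, hl1, hl2, hl3⟩ := residue n ⟨m, hm⟩ K
        have hnL : 2 ^ L ≤ n := Nat.pow_log_le_self 2 (by omega)
        have hle : pr l ≤ n := by
          refine hl2.trans (le_trans ?_ hnL)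
          apply Nat.pow_le_pow_right (by norm_num)
          rw [hK] at hJJ
          nlinarith
        have hmod : 2 ^ (K + 1) ∣ n - pr l := (Nat.modEq_iff_dvd' hle).1 hl3
        rw [← hK] at hmod
        obtain ⟨c, hc⟩ := hmod
        rcases Nat.eq_zero_or_pos c with hc0 | hcpos
        · rw [hc0, mul_zero] at hc
          refine ⟨0, by simp, [n], by simp, ?_, by simp⟩
          intro y hy
          rw [List.mem_singleton] at hy
          exact ⟨0, l, by omega, by rw [hy]; omega⟩
        · have hnc : n = pr l + 2 ^ J * c := by omega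
          have hcn : c < n := by
            have : 2 * c ≤ 2 ^ J * c := by
              apply Nat.mul_le_mul_right
              calc 2 = 2 ^ 1 := by norm_num
                _ ≤ 2 ^ J := Nat.pow_le_pow_right (by norm_num) hJ1
            omega
          obtain ⟨x, hx, l', hl', hT, hs⟩ := ih c hcn hcpos
          have hlogc : Nat.log 2 c ≤ L - J := by
            have h1 : 2 ^ (J + Nat.log 2 c) ≤ n := by
              rw [pow_add]
              calc 2 ^ J * 2 ^ Nat.log 2 c ≤ 2 ^ J * c :=
                    Nat.mul_le_mul_left _ (Nat.pow_log_le_self 2 (by omega))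
                _ ≤ n := by omega
            have h2 := Nat.le_log_of_pow_le (by norm_num) h1
            omega
          have hx' : x ^ 2 ≤ 9 * (L - J) := hx.trans (Nat.mul_le_mul_left _ hlogc)
          refine ⟨x + 1, count_step hJJ hJ2 hJ1 hx', pr l :: l'.map (fun y => 2 ^ J * y), ?_, ?_, ?_⟩
          · simpa using hl'
          · intro y hy
            rcases List.mem_cons.1 hy with h | h
            · exact ⟨0, l, by omega, by rw [h]; simp⟩
            · rw [List.mem_map] at h
              obtain ⟨z, hz, rfl⟩ := h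
              refine ((hT z hz).two_pow J).mono (Nat.sqrt_le_sqrt ?_)
              omega
          · rw [List.sum_cons, List.sum_map_mul_left, List.map_id', hs]
            exact hnc.symm

end Pool.Agent.H764R2.Had
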