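import Pool.Agent.H114R2.Fam

/-! Multiplication of four complementary sign sequences by `2 * (2 * s + 1)`, `s` the length of a
Golay pair (after C. H. Yang). -/

namespace Pool.Agent.H764R2.Had

open Finset Pool.Agent.H114R2

/-- flattening of superblocks of length `M` -/
def fl (M : ℕ) (φ : ℕ → ℕ → ℤ) (n : ℕ) : ℤ := φ (n / M) (n % M)

theorem ev_fl {R : Type} [CommRing R] (M h : ℕ) (hM : 0 < M) (φ : ℕ → ℕ → ℤ) (u : R) :
    ev (fl M φ) (M * h) u = ∑ j ∈ range h, (u ^ M) ^ j * ev (φ j) M u := by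
  unfold ev fl
  rw [sum_range_mul_split]
  refine Finset.sum_congr rfl (fun j _ => ?_)
  rw [Finset.mul_sum]
  refine Finset.sum_congr rfl (fun i hi => ?_)
  rw [Finset.mem_range] at hi
  rw [Nat.add_mul_div_left _ _ hM, Nat.div_eq_of_lt hi, Nat.add_mul_mod_self_left,
    Nat.mod_eq_of_lt hi, zero_add, pow_add, pow_mul]
  ring

theorem ev_smul {R : Type} [CommRing R] (c : ℤ) (a : ℕ → ℤ) (n : ℕ) (u : R) :
    ev (fun i => c * a i) n u = c * ev a n u := by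
  unfold ev
  rw [Finset.mul_sum]
  refine Finset.sum_congr rfl (fun i _ => ?_)
  push_cast; ring

theorem ev_add {R : Type} [CommRing R] (a b : ℕ → ℤ) (n : ℕ) (u : R) :
    ev (fun i => a i + b i) n u = ev a n u + ev b n u := by
  unfold ev
  rw [← Finset.sum_add_distrib]
  refine Finset.sum_congr rfl (fun i _ => ?_)
  push_cast; ring

/-- first half of the superblock `j` -/
def fst (s : ℕ) (X Y Yr p1 p2 p3 p4 : ℕ → ℤ) (j : ℕ) : ℕ → ℤ :=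
  if j < s then fun k => X j * p1 k
  else if j = s then p2
  else fun k => Yr (j - (s + 1)) * p3 k + Y (j - (s + 1)) * p4 k

/-- second half of the superblock `j` -/
def snd (s : ℕ) (X Y Yr q1 q2 q3 q4 : ℕ → ℤ) (j : ℕ) : ℕ → ℤ :=
  if j < s then fun k => X j * q1 k
  else if j < s + s then fun k => Y (j - s) * q2 k + Yr (j - s) * q3 k
  else q4

theorem sum_fst {R : Type} [CommRing R] (m s : ℕ) (X Y Yr p1 p2 p3 p4 : ℕ → ℤ) (u w : R) :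
    ∑ j ∈ range (s + (1 + s)), w ^ j * ev (fst s X Y Yr p1 p2 p3 p4 j) m u =
      ev X s w * ev p1 m u + w ^ s * ev p2 m u +
        w ^ (s + 1) * (ev Yr s w * ev p3 m u + ev Y s w * ev p4 m u) := by
  rw [Finset.sum_range_add, Finset.sum_range_add, Finset.sum_range_one]
  have h1 : ∑ j ∈ range s, w ^ j * ev (fst s X Y Yr p1 p2 p3 p4 j) m u = ev X s w * ev p1 m u := by
    rw [ev, Finset.sum_mul]
    refine Finset.sum_congr rfl (fun j hj => ?_)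
    rw [Finset.mem_range] at hj
    rw [fst, if_pos hj, ev_smul]
    ring
  have h2 : ∑ j ∈ range s, w ^ (s + (1 + j)) * ev (fst s X Y Yr p1 p2 p3 p4 (s + (1 + j))) m u =
      w ^ (s + 1) * (ev Yr s w * ev p3 m u + ev Y s w * ev p4 m u) := by
    rw [show ev Yr s w = ∑ i ∈ range s, (Yr i : R) * w ^ i from rfl,
      show ev Y s w = ∑ i ∈ range s, (Y i : R) * w ^ i from rfl,
      Finset.sum_mul, Finset.sum_mul, ← Finset.sum_add_distrib, Finset.mul_sum]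
    refine Finset.sum_congr rfl (fun j _ => ?_)
    rw [fst, if_neg (by omega), if_neg (by omega), show s + (1 + j) - (s + 1) = j by omega,
      ev_add, ev_smul, ev_smul]
    ring
  rw [h1, h2, fst, if_neg (by omega), if_pos (by omega)]
  ring_nf

theorem sum_snd {R : Type} [CommRing R] (m s : ℕ) (X Y Yr q1 q2 q3 q4 : ℕ → ℤ) (u w : R) :
    ∑ j ∈ range (s + s + 1), w ^ j * ev (snd s X Y Yr q1 q2 q3 q4 j) m u =
      ev X s w * ev q1 m u + w ^ s * (ev Y s w * ev q2 m u + ev Yr s w * ev q3 m u) +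
        w ^ (s + s) * ev q4 m u := by
  rw [Finset.sum_range_succ, Finset.sum_range_add]
  have h1 : ∑ j ∈ range s, w ^ j * ev (snd s X Y Yr q1 q2 q3 q4 j) m u = ev X s w * ev q1 m u := by
    rw [ev, Finset.sum_mul]
    refine Finset.sum_congr rfl (fun j hj => ?_)
    rw [Finset.mem_range] at hj
    rw [snd, if_pos hj, ev_smul]
    ring
  have h2 : ∑ j ∈ range s, w ^ (s + j) * ev (snd s X Y Yr q1 q2 q3 q4 (s + j)) m u =
      w ^ s * (ev Y s w * ev q2 m u + ev Yr s w * ev q3 m u) := by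
    rw [show ev Yr s w = ∑ i ∈ range s, (Yr i : R) * w ^ i from rfl,
      show ev Y s w = ∑ i ∈ range s, (Y i : R) * w ^ i from rfl,
      Finset.sum_mul, Finset.sum_mul, ← Finset.sum_add_distrib, Finset.mul_sum]
    refine Finset.sum_congr rfl (fun j hj => ?_)
    rw [Finset.mem_range] at hj
    rw [snd, if_neg (by omega), if_pos (by omega), show s + j - s = j by omega,
      ev_add, ev_smul, ev_smul]
    ring
  rw [h1, h2, snd, if_neg (by omega), if_neg (by omega)]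

/-- the composed sequence -/
def sq (m s : ℕ) (X Y Yr p1 p2 p3 p4 q1 q2 q3 q4 : ℕ → ℤ) : ℕ → ℤ :=
  fl (m + m) (fun j => cat m (fst s X Y Yr p1 p2 p3 p4 j) (snd s X Y Yr q1 q2 q3 q4 j))

theorem ev_sq {R : Type} [CommRing R] (m s : ℕ) (hm : 0 < m)
    (X Y Yr p1 p2 p3 p4 q1 q2 q3 q4 : ℕ → ℤ) (u : R) :
    ev (sq m s X Y Yr p1 p2 p3 p4 q1 q2 q3 q4) ((m + m) * (s + s + 1)) u =
      (ev X s (u ^ (m + m)) * ev p1 m u + (u ^ (m + m)) ^ s * ev p2 m u +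
        (u ^ (m + m)) ^ (s + 1) * (ev Yr s (u ^ (m + m)) * ev p3 m u +
          ev Y s (u ^ (m + m)) * ev p4 m u)) +
      u ^ m * (ev X s (u ^ (m + m)) * ev q1 m u + (u ^ (m + m)) ^ s *
        (ev Y s (u ^ (m + m)) * ev q2 m u + ev Yr s (u ^ (m + m)) * ev q3 m u) +
        (u ^ (m + m)) ^ (s + s) * ev q4 m u) := by
  unfold sq
  rw [ev_fl _ _ (by omega), ← sum_fst, ← sum_snd, show s + s + 1 = s + (1 + s) by ring,
    Finset.mul_sum, ← Finset.sum_add_distrib]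
  refine Finset.sum_congr rfl (fun j _ => ?_)
  rw [ev_cat]
  ring

/-- the algebraic identity behind the multiplication -/
theorem yang_ring {R : Type} [CommRing R] (u v μ ν W Z x x1 y y1 e e1 f f1 g g1 h h1 : R)
    (hu : u * v = 1) (hμ : μ * ν = 1) (hW : W * Z = 1) :
    (x*((μ*v)*(e1+f1))-W*μ^2*(e-f)+μ*(W*μ^2*(y*g-W*y1*h))) *
      (x1*((ν*u)*(e+f))-Z*ν^2*(e1-f1)+ν*(Z*ν^2*(y1*g1-Z*y*h1))) +
    (-(x*((μ*v)*(e1-f1)))-W*μ^2*(e+f)+μ*(W*μ^2*(y*g+W*y1*h))) *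
      (-(x1*((ν*u)*(e-f)))-Z*ν^2*(e1+f1)+ν*(Z*ν^2*(y1*g1+Z*y*h1))) +
    (μ*(x*((μ*v)*(g1+h1)))+μ*(W*μ^2*(W*μ^2)*(g-h))+W*μ^4*(W*y1*e-y*f)) *
      (ν*(x1*((ν*u)*(g+h)))+ν*(Z*ν^2*(Z*ν^2)*(g1-h1))+Z*ν^4*(Z*y*e1-y1*f1)) +
    (μ*(x*((μ*v)*(g1-h1)))-μ*(W*μ^2*(W*μ^2)*(g+h))-W*μ^4*(y*f+W*y1*e)) *
      (ν*(x1*((ν*u)*(g-h)))-ν*(Z*ν^2*(Z*ν^2)*(g1+h1))-Z*ν^4*(y1*f1+Z*y*e1)) =
    2 * (e*e1+f*f1+g*g1+h*h1) * (x*x1+y*y1+1) := by
  linear_combination ((2)*μ*ν*x*x1*f*f1 + (2)*μ*ν*x*x1*e*e1 + (2)*μ^2*ν^2*x*x1*h*h1 + (2)*μ^2*ν^2*x*x1*g*g1) * hu + ((2)*x*x1*h*h1 + (2)*x*x1*g*g1 + (2)*x*x1*f*f1 + (2)*x*x1*e*e1 + (2)*W*Z*f*f1 + (2)*W*Z*e*e1 + (2)*W*Z*y*y1*g*g1 + (2)*W*Z*y*y1*f*f1 + (2)*W^2*Z^2*h*h1 + (2)*W^2*Z^2*g*g1 + (2)*W^2*Z^2*y*y1*h*h1 + (2)*W^2*Z^2*y*y1*e*e1 + (-2)*ν*W*Z*y1*e*g1 + (2)*ν*W^2*Z^2*y1*e*g1 + (-2)*μ*W*Z*y*e1*g + (2)*μ*W^2*Z^2*y*e1*g + (2)*μ*ν*x*x1*h*h1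 + (2)*μ*ν*x*x1*g*g1 + (2)*μ*ν*W*Z*f*f1 + (2)*μ*ν*W*Z*e*e1 + (2)*μ*ν*W*Z*y*y1*g*g1 + (2)*μ*ν*W*Z*y*y1*f*f1 + (2)*μ*ν*W^2*Z^2*h*h1 + (2)*μ*ν*W^2*Z^2*g*g1 + (2)*μ*ν*W^2*Z^2*y*y1*h*h1 + (2)*μ*ν*W^2*Z^2*y*y1*e*e1 + (-2)*μ*ν^2*W*Z*y1*e*g1 + (2)*μ*ν^2*W^2*Z^2*y1*e*g1 + (-2)*μ^2*ν*W*Z*y*e1*g + (2)*μ^2*ν*W^2*Z^2*y*e1*g + (2)*μ^2*ν^2*W*Z*y*y1*g*g1 + (2)*μ^2*ν^2*W*Z*y*y1*f*f1 + (2)*μ^2*ν^2*W^2*Z^2*h*h1 + (2)*μ^2*ν^2*W^2*Z^2*g*g1 + (2)*μ^2*ν^2*W^2*Z^2*y*y1*h*h1 + (2)*μ^2*ν^2*W^2*Z^2*y*y1*e*e1 + (2)*μ^2*ν^3*W*Z^2*y*f*h1 + (2)*μ^2*ν^3*W^2*Z^2*y1*e*g1 + (2)*μ^3*ν^2*W^2*Z*y1*f1*h + (2)*μ^3*ν^2*W^2*Z^2*y*e1*g + (2)*μ^3*ν^3*W*Z*y*y1*f*f1 + (2)*μ^3*ν^3*W^2*Z^2*h*h1 + (2)*μ^3*ν^3*W^2*Z^2*g*g1 + (2)*μ^3*ν^3*W^2*Z^2*y*y1*e*e1 + (2)*μ^3*ν^4*W*Z^2*y*f*h1 + (2)*μ^3*ν^4*W^2*Z^2*y1*e*g1 + (2)*μ^4*ν^3*W^2*Z*y1*f1*h + (2)*μ^4*ν^3*W^2*Z^2*y*e1*g + (2)*μ^4*ν^4*W^2*Z^2*h*h1 + (2)*μ^4*ν^4*W^2*Z^2*g*g1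 + (-2)*v*μ*ν^3*Z*x*y1*f1*g1 + (2)*v*μ*ν^3*Z^2*x*y*e1*h1 + (-2)*u*μ^3*ν*W*x1*y*f*g + (2)*u*μ^3*ν*W^2*x1*y1*e*h) * hμ + ((2)*h*h1 + (2)*g*g1 + (2)*f*f1 + (2)*e*e1 + (2)*y*y1*h*h1 + (2)*y*y1*g*g1 + (2)*y*y1*f*f1 + (2)*y*y1*e*e1 + (2)*W*Z*h*h1 + (2)*W*Z*g*g1 + (2)*W*Z*y*y1*h*h1 + (2)*W*Z*y*y1*e*e1 + (2)*ν*W*Z*y1*e*g1 + (2)*μ*W*Z*y*e1*g) * hW

/-- sign sequence -/
def Sg (a : ℕ → ℤ) : Prop := ∀ i, a i = 1 ∨ a i = -1

/-- disjoint supports, union everything -/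
def Dj (a b : ℕ → ℤ) : Prop :=
  ∀ i, (a i = 0 ∧ (b i = 1 ∨ b i = -1)) ∨ (b i = 0 ∧ (a i = 1 ∨ a i = -1))

theorem sg_mul {x y : ℤ} (hx : x = 1 ∨ x = -1) (hy : y = 1 ∨ y = -1) : x * y = 1 ∨ x * y = -1 := by
  rcases hx with rfl | rfl <;> rcases hy with rfl | rfl <;> simp

theorem sg_comb {x y a b : ℤ} (hx : x = 1 ∨ x = -1) (hy : y = 1 ∨ y = -1)
    (h : (a = 0 ∧ (b = 1 ∨ b = -1)) ∨ (b = 0 ∧ (a = 1 ∨ a = -1))) :
    x * a + y * b = 1 ∨ x * a + y * b = -1 := by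
  rcases h with ⟨rfl, h⟩ | ⟨rfl, h⟩
  · rw [mul_zero, zero_add]; exact sg_mul hy h
  · rw [mul_zero, add_zero]; exact sg_mul hx h

theorem sg_sq {m s : ℕ} {X Y Yr p1 p2 p3 p4 q1 q2 q3 q4 : ℕ → ℤ} (hX : Sg X) (hY : Sg Y)
    (hYr : Sg Yr) (h1 : Sg p1) (h2 : Sg p2) (h34 : Dj p3 p4) (k1 : Sg q1) (k23 : Dj q2 q3)
    (k4 : Sg q4) : Sg (sq m s X Y Yr p1 p2 p3 p4 q1 q2 q3 q4) := by
  intro n
  unfold sq fl cat
  dsimp only
  generalize n / (m + m) = j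
  generalize n % (m + m) = k
  unfold fst snd
  split_ifs
  · exact sg_mul (hX _) (h1 _)
  · exact h2 _
  · exact sg_comb (hYr _) (hY _) (h34 _)
  · exact sg_mul (hX _) (k1 _)
  · exact sg_comb (hY _) (hYr _) (k23 _)
  · exact k4 _

theorem Sg.neg {a : ℕ → ℤ} (h : Sg a) : Sg (fun i => - a i) := by
  intro i
  rcases h i with h | h
  · exact Or.inr (by dsimp only; rw [h])
  · exact Or.inl (by dsimp only; rw [h]; norm_num)

theorem Dj.neg_left {a b : ℕ → ℤ} (h : Dj a b) : Dj (fun i => - a i) b := by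
  intro i
  rcases h i with ⟨h, h'⟩ | ⟨h, h'⟩
  · exact Or.inl ⟨by dsimp only; rw [h, neg_zero], h'⟩
  · exact Or.inr ⟨h, by dsimp only; omega⟩

theorem Dj.neg_right {a b : ℕ → ℤ} (h : Dj a b) : Dj a (fun i => - b i) := by
  intro i
  rcases h i with ⟨h, h'⟩ | ⟨h, h'⟩
  · exact Or.inl ⟨h, by dsimp only; omega⟩
  · exact Or.inr ⟨by dsimp only; rw [h, neg_zero], h'⟩

theorem halves {A B : ℕ → ℤ} (hA : Sg A) (hB : Sg B) : ∃ e f : ℕ → ℤ, Dj e f ∧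
    A = (fun i => e i + f i) ∧ B = (fun i => e i + - f i) := by
  have h : ∀ i, ∃ e f : ℤ, ((e = 0 ∧ (f = 1 ∨ f = -1)) ∨ (f = 0 ∧ (e = 1 ∨ e = -1))) ∧
      A i = e + f ∧ B i = e + - f := by
    intro i
    rcases hA i with h1 | h1 <;> rcases hB i with h2 | h2 <;> rw [h1, h2]
    · exact ⟨1, 0, by norm_num⟩
    · exact ⟨0, 1, by norm_num⟩
    · exact ⟨0, -1, by norm_num⟩
    · exact ⟨-1, 0, by norm_num⟩
  choose e f hd h1 h2 using h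
  exact ⟨e, f, hd, funext h1, funext h2⟩

/-- **Yang multiplication** for four complementary sequences. -/
theorem yang {m s : ℕ} (hm : 0 < m) (hs : 0 < s) {X Y : ℕ → ℤ} (hG : IsGolay s X Y)
    (hC : CompFam 4 m) : CompFam 4 ((m + m) * (s + s + 1)) := by
  obtain ⟨hX, hY, hXY⟩ := hG
  obtain ⟨S, hS, hSS⟩ := hC
  obtain ⟨e, f, hef, hA, hB⟩ := halves (hS 0) (hS 1)
  obtain ⟨g, h, hgh, hC, hD⟩ := halves (hS 2) (hS 3)
  let Yr : ℕ → ℤ := fun i => Y (s - 1 - i)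
  let Ar : ℕ → ℤ := fun i => S 0 (m - 1 - i)
  let Br : ℕ → ℤ := fun i => S 1 (m - 1 - i)
  let Cr : ℕ → ℤ := fun i => S 2 (m - 1 - i)
  let Dr : ℕ → ℤ := fun i => S 3 (m - 1 - i)
  have hYr : Sg Yr := fun i => hY _
  have hAr : Sg Ar := fun i => hS _ _
  have hBr : Sg Br := fun i => hS _ _
  have hCr : Sg Cr := fun i => hS _ _
  have hDr : Sg Dr := fun i => hS _ _
  have hA' : Sg (S 0) := hS 0
  have hB' : Sg (S 1) := hS 1
  have hC' : Sg (S 2) := hS 2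
  have hD' : Sg (S 3) := hS 3
  refine ⟨![sq m s X Y Yr Ar (fun i => - S 1 i) e (fun i => - f i) Cr g (fun i => - h i) (S 3),
    sq m s X Y Yr Ar (fun i => - S 1 i) (fun i => - e i) f (fun i => - Cr i) g (fun i => - h i)
      (fun i => - S 3 i),
    sq m s X Y Yr (fun i => - Br i) (fun i => - S 0 i) (fun i => - e i) (fun i => - f i) Dr g h
      (fun i => - S 2 i),
    sq m s X Y Yr (fun i => - Br i) (fun i => - S 0 i) e f (fun i => - Dr i) g h (S 2)], ?_, ?_⟩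
  · intro j
    fin_cases j
    · exact sg_sq hX hY hYr hAr hB'.neg hef.neg_right hCr hgh.neg_right hD'
    · exact sg_sq hX hY hYr hAr hB'.neg hef.neg_left hCr.neg hgh.neg_right hD'.neg
    · exact sg_sq hX hY hYr hBr.neg hA'.neg hef.neg_left.neg_right hDr hgh hC'.neg
    · exact sg_sq hX hY hYr hBr.neg hA'.neg hef hDr.neg hgh hC'
  · intro R _ u v huv
    have key : ∀ a b : R, a * b = 1 → ∀ n : ℕ, a ^ n * b ^ n = 1 := by
      intro a b hab n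
      rw [← mul_pow, hab, one_pow]
    have hpow : ∀ a b : R, a * b = 1 → a ^ (m - 1) = a ^ m * b := by
      intro a b hab
      obtain ⟨k, rfl⟩ : ∃ k, m = k + 1 := ⟨m - 1, by omega⟩
      rw [Nat.add_sub_cancel, pow_succ]
      linear_combination (- a ^ k) * hab
    have hw : ∀ a : R, a ^ (m + m) = (a ^ m) ^ 2 := by
      intro a; rw [← pow_mul]; congr 1; ring
    have hws : ∀ w : R, w ^ s = w ^ (s - 1) * w := by
      intro w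
      obtain ⟨k, rfl⟩ : ∃ k, s = k + 1 := ⟨s - 1, by omega⟩
      rw [Nat.add_sub_cancel, pow_succ]
    have hws1 : ∀ w : R, w ^ (s + 1) = w ^ (s - 1) * w ^ 2 := by
      intro w
      obtain ⟨k, rfl⟩ : ∃ k, s = k + 1 := ⟨s - 1, by omega⟩
      rw [Nat.add_sub_cancel]; ring
    have hwss : ∀ w : R, w ^ (s + s) = (w ^ (s - 1) * w) * (w ^ (s - 1) * w) := by
      intro w
      obtain ⟨k, rfl⟩ : ∃ k, s = k + 1 := ⟨s - 1, by omega⟩
      rw [Nat.add_sub_cancel]; ring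
    -- evaluation of every sequence at `a` with inverse `b`
    have hE0 : ∀ a : R, ev (S 0) m a = ev e m a + ev f m a := by
      intro a; rw [hA, ev_add]
    have hE1 : ∀ a : R, ev (S 1) m a = ev e m a - ev f m a := by
      intro a; rw [hB, ev_add, ev_neg]; ring
    have hE2 : ∀ a : R, ev (S 2) m a = ev g m a + ev h m a := by
      intro a; rw [hC, ev_add]
    have hE3 : ∀ a : R, ev (S 3) m a = ev g m a - ev h m a := by
      intro a; rw [hD, ev_add, ev_neg]; ring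
    have hrev : ∀ (i : Fin 4) (a b : R), a * b = 1 →
        ev (fun k => S i (m - 1 - k)) m a = (a ^ m * b) * ev (S i) m b := by
      intro i a b hab
      rw [pow_mul_ev_rev _ _ _ _ hab, hpow a b hab]
    have hfam := hSS R u v huv
    rw [Fin.sum_univ_four, hE0, hE0, hE1, hE1, hE2, hE2, hE3, hE3] at hfam
    have hvu : v * u = 1 := by rw [mul_comm]; exact huv
    have hwu : u ^ (m + m) * v ^ (m + m) = 1 := key u v huv _
    have hwv : v ^ (m + m) * u ^ (m + m) = 1 := key v u hvu _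
    have hgol := hXY R _ _ hwu
    have hYu : ev Yr s (u ^ (m + m)) = (u ^ (m + m)) ^ (s - 1) * ev Y s (v ^ (m + m)) :=
      pow_mul_ev_rev _ _ _ _ hwu
    have hYv : ev Yr s (v ^ (m + m)) = (v ^ (m + m)) ^ (s - 1) * ev Y s (u ^ (m + m)) :=
      pow_mul_ev_rev _ _ _ _ hwv
    have hring := yang_ring u v (u ^ m) (v ^ m) ((u ^ (m + m)) ^ (s - 1)) ((v ^ (m + m)) ^ (s - 1))
      (ev X s (u ^ (m + m))) (ev X s (v ^ (m + m))) (ev Y s (u ^ (m + m))) (ev Y s (v ^ (m + m)))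
      (ev e m u) (ev e m v) (ev f m u) (ev f m v) (ev g m u) (ev g m v) (ev h m u) (ev h m v)
      huv (key u v huv m) (key _ _ hwu _)
    have hx : ev X s (u ^ (m + m)) * ev X s (v ^ (m + m)) +
        ev Y s (u ^ (m + m)) * ev Y s (v ^ (m + m)) + 1 = 2 * (s : R) + 1 := by
      rw [hgol]
    have a1 : ev Ar m u = (u ^ m * v) * (ev e m v + ev f m v) := by
      rw [show ev Ar m u = _ from hrev 0 u v huv, hE0]
    have a2 : ev Ar m v = (v ^ m * u) * (ev e m u + ev f m u) := by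
      rw [show ev Ar m v = _ from hrev 0 v u hvu, hE0]
    have b1 : ev Br m u = (u ^ m * v) * (ev e m v - ev f m v) := by
      rw [show ev Br m u = _ from hrev 1 u v huv, hE1]
    have b2 : ev Br m v = (v ^ m * u) * (ev e m u - ev f m u) := by
      rw [show ev Br m v = _ from hrev 1 v u hvu, hE1]
    have c1 : ev Cr m u = (u ^ m * v) * (ev g m v + ev h m v) := by
      rw [show ev Cr m u = _ from hrev 2 u v huv, hE2]
    have c2 : ev Cr m v = (v ^ m * u) * (ev g m u + ev h m u) := by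
      rw [show ev Cr m v = _ from hrev 2 v u hvu, hE2]
    have d1 : ev Dr m u = (u ^ m * v) * (ev g m v - ev h m v) := by
      rw [show ev Dr m u = _ from hrev 3 u v huv, hE3]
    have d2 : ev Dr m v = (v ^ m * u) * (ev g m u - ev h m u) := by
      rw [show ev Dr m v = _ from hrev 3 v u hvu, hE3]
    rw [hx] at hring
    rw [Fin.sum_univ_four]
    simp only [Matrix.cons_val_zero, Matrix.cons_val_one, Matrix.cons_val]
    simp only [ev_sq m s hm, ev_neg, hYu, hYv, hws, hws1, hwss, hE0, hE1, hE2, hE3,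
      a1, a2, b1, b2, c1, c2, d1, d2]
    generalize ev X s (u ^ (m + m)) = x at hring ⊢
    generalize ev X s (v ^ (m + m)) = x1 at hring ⊢
    generalize ev Y s (u ^ (m + m)) = y at hring ⊢
    generalize ev Y s (v ^ (m + m)) = y1 at hring ⊢
    generalize (u ^ (m + m)) ^ (s - 1) = W at hring ⊢
    generalize (v ^ (m + m)) ^ (s - 1) = Z at hring ⊢
    rw [hw u, hw v]
    generalize u ^ m = μ at hring ⊢
    generalize v ^ m = ν at hring ⊢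
    push_cast at hfam ⊢
    linear_combination 2 * hring + 2 * (2 * (s : R) + 1) * hfam

end Pool.Agent.H764R2.Had
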